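import Mathlib
import Pool.Agent.H68R2.BP.Props2

open scoped ComplexOrder InnerProductSpace ComplexConjugate Topology
open Finset Filter

noncomputable section

namespace H68R2.BP

open H759R2.Kad H744R2.KZ

namespace ESelaux

/-- Finite-dimensional selection by Hahn-Banach separation. -/
theorem select {ι : Type} [Fintype ι] (K : Set (ι → ℝ)) (hK : Convex ℝ K) (q : ι → ℝ) (ε : ℝ)
    (hε : 0 < ε)
    (h : ∀ t : ι → ℝ, (∀ i, 0 ≤ t i) → ∀ δ : ℝ, 0 < δ → ∃ g ∈ K, ∑ i, t i * q i - δ ≤ ∑ i, t i * g i) :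
    ∃ g ∈ K, ∀ i, q i - ε ≤ g i := by
  classical
  by_contra hno
  push Not at hno
  set U : Set (ι → ℝ) := {g | ∀ i, q i - ε < g i} with hU
  have hUo : IsOpen U := by
    have : U = Set.pi Set.univ (fun i => Set.Ioi (q i - ε)) := by
      ext g; simp [hU]
    rw [this]
    exact isOpen_set_pi Set.finite_univ (fun i _ => isOpen_Ioi)
  have hUc : Convex ℝ U := by
    have : U = Set.pi Set.univ (fun i => Set.Ioi (q i - ε)) := by
      ext g; simp [hU]
    rw [this]
    exact convex_pi (fun i _ => convex_Ioi _)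
  have hdis : Disjoint U K := by
    rw [Set.disjoint_left]
    intro g hg hgK
    obtain ⟨i, hi⟩ := hno g hgK
    exact absurd (hg i) (not_lt.2 hi.le)
  obtain ⟨f, u, hf1, hf2⟩ := geometric_hahn_banach_open hUc hUo hK hdis
  have hrep : ∀ g : ι → ℝ, f g = ∑ i, g i * f (Pi.single i 1) := by
    intro g
    conv_lhs => rw [show g = ∑ i, g i • (Pi.single i (1 : ℝ) : ι → ℝ) from by
      ext j
      simp [Finset.sum_apply, Pi.single_apply]]
    rw [map_sum]
    refine Finset.sum_congr rfl fun i _ => ?_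
    rw [map_smul, smul_eq_mul]
  set t : ι → ℝ := fun i => - f (Pi.single i 1) with ht
  set a : ι → ℝ := fun i => q i - ε / 2 with ha
  have haU : a ∈ U := by
    intro i
    simp only [ha]
    linarith
  have ht0 : ∀ i, 0 ≤ t i := by
    intro i
    by_contra hneg
    push Not at hneg
    have hpos : 0 < f (Pi.single i 1) := by simp only [ht] at hneg; linarith
    -- choose s large
    obtain ⟨s, hs⟩ : ∃ s : ℝ, 0 ≤ s ∧ u ≤ f a + s * f (Pi.single i 1) := by
      refine ⟨max 0 ((u - f a) / f (Pi.single i 1)), le_max_left _ _, ?_⟩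
      have h1 : (u - f a) / f (Pi.single i 1) * f (Pi.single i 1) = u - f a := by
        field_simp
      have h2 := mul_le_mul_of_nonneg_right (le_max_right 0 ((u - f a) / f (Pi.single i 1))) hpos.le
      linarith
    have hmem : a + s • (Pi.single i (1 : ℝ) : ι → ℝ) ∈ U := by
      intro j
      have h1 := haU j
      have h2 : 0 ≤ s * (Pi.single i (1 : ℝ) : ι → ℝ) j := by
        refine mul_nonneg hs.1 ?_
        by_cases hij : j = i
        · subst hij; simp
        · simp [Pi.single_apply, hij]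
      simp only [Pi.add_apply, Pi.smul_apply, smul_eq_mul]
      linarith
    have h3 := hf1 _ hmem
    rw [map_add, map_smul, smul_eq_mul] at h3
    linarith [hs.2]
  have h1 : ∀ g ∈ K, ∑ i, t i * g i ≤ - u := by
    intro g hg
    have h2 := hf2 g hg
    rw [hrep] at h2
    have h3 : ∑ i, t i * g i = - ∑ i, g i * f (Pi.single i 1) := by
      rw [← Finset.sum_neg_distrib]
      refine Finset.sum_congr rfl fun i _ => ?_
      simp only [ht]; ring
    rw [h3]; linarith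
  have h2 : - u < ∑ i, t i * q i := by
    have h3 := hf1 a haU
    rw [hrep] at h3
    have h4 : ∑ i, t i * a i = - ∑ i, a i * f (Pi.single i 1) := by
      rw [← Finset.sum_neg_distrib]
      refine Finset.sum_congr rfl fun i _ => ?_
      simp only [ht]; ring
    have h5 : ∑ i, t i * a i ≤ ∑ i, t i * q i := by
      refine Finset.sum_le_sum fun i _ => mul_le_mul_of_nonneg_left ?_ (ht0 i)
      simp only [ha]; linarith
    linarith
  obtain ⟨g, hg, hg2⟩ := h t ht0 ((∑ i, t i * q i + u) / 2) (by linarith)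
  have := h1 g hg
  linarith

/-- Almost norming pairs of unit vectors. -/
theorem norming {S : Type} [NormedAddCommGroup S] [InnerProductSpace ℂ S] [CompleteSpace S]
    (T : S →L[ℂ] S) (δ : ℝ) (hδ : 0 < δ) :
    ∃ h k : S, ‖h‖ ≤ 1 ∧ ‖k‖ ≤ 1 ∧ ‖T‖ - δ ≤ (⟪k, T h⟫_ℂ).re := by
  by_contra hno
  push Not at hno
  have hpos : 0 < ‖T‖ - δ := by
    have := hno 0 0 (by simp) (by simp)
    simpa using this
  have h1 : ‖T‖ ≤ ‖T‖ - δ := by
    refine ContinuousLinearMap.opNorm_le_bound _ hpos.le ?_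
    intro x
    by_cases hx : x = 0
    · subst hx; simp
    by_cases hTx : T x = 0
    · rw [hTx, norm_zero]; positivity
    have hx' : 0 < ‖x‖ := norm_pos_iff.2 hx
    have hTx' : 0 < ‖T x‖ := norm_pos_iff.2 hTx
    have h2 := hno (((‖x‖⁻¹ : ℝ) : ℂ) • x) (((‖T x‖⁻¹ : ℝ) : ℂ) • T x)
      (by rw [norm_smul, Complex.norm_real, norm_inv, norm_norm]; rw [inv_mul_cancel₀ hx'.ne'])
      (by rw [norm_smul, Complex.norm_real, norm_inv, norm_norm]; rw [inv_mul_cancel₀ hTx'.ne'])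
    rw [map_smul, inner_smul_left, inner_smul_right, Complex.conj_ofReal, inner_self_eq_norm_sq_to_K] at h2
    have h3 : (((‖T x‖⁻¹ : ℝ) : ℂ) * (((‖x‖⁻¹ : ℝ) : ℂ) * ((‖T x‖ : ℂ) ^ 2))).re =
        ‖T x‖ * ‖x‖⁻¹ := by
      have : ((‖T x‖⁻¹ : ℝ) : ℂ) * (((‖x‖⁻¹ : ℝ) : ℂ) * ((‖T x‖ : ℂ) ^ 2)) =
          ((‖T x‖⁻¹ * (‖x‖⁻¹ * ‖T x‖ ^ 2) : ℝ) : ℂ) := by push_cast; ring
      rw [this, Complex.ofReal_re]
      field_simp
    have h4 : ‖T x‖ * ‖x‖⁻¹ < ‖T‖ - δ := by
      rw [← h3]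
      exact h2
    calc ‖T x‖ = ‖T x‖ * ‖x‖⁻¹ * ‖x‖ := by field_simp
      _ ≤ (‖T‖ - δ) * ‖x‖ := mul_le_mul_of_nonneg_right h4.le hx'.le
  linarith

end ESelaux

open ESelaux in
theorem prove_E_sel : E_sel := by
  intro H _ _ _ S κ _ _ _ b l₀ r₀ th hM A q hA hq hTT F ε hF hε
  classical
  -- the convex set
  set Φ : (n : ℕ) → (Fin n → S) → (Fin n → S) → (F → ℝ) :=
    fun n h k x => ∑ j, (⟪k j, l₀ x.1 (r₀ x.1 (h j))⟫_ℂ).re with hΦ
  set K : Set (F → ℝ) := {g | ∃ (n : ℕ) (h k : Fin n → S), ∑ j, ‖h j‖ ^ 2 ≤ 1 ∧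
    ∑ j, ‖k j‖ ^ 2 ≤ 1 ∧ g = Φ n h k} with hKdef
  have hK : Convex ℝ K := by
    rintro g ⟨n, h, k, hh, hk, rfl⟩ g' ⟨n', h', k', hh', hk', rfl⟩ s t hs ht hst
    refine ⟨n + n', Fin.append (fun j => ((√s : ℝ) : ℂ) • h j) (fun j => ((√t : ℝ) : ℂ) • h' j),
      Fin.append (fun j => ((√s : ℝ) : ℂ) • k j) (fun j => ((√t : ℝ) : ℂ) • k' j), ?_, ?_, ?_⟩
    · rw [Fin.sum_univ_add]
      simp only [Fin.append_left, Fin.append_right, norm_smul, Complex.norm_real, mul_pow,
        Real.norm_eq_abs, sq_abs, Real.sq_sqrt hs, Real.sq_sqrt ht]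
      rw [← Finset.mul_sum, ← Finset.mul_sum]
      nlinarith
    · rw [Fin.sum_univ_add]
      simp only [Fin.append_left, Fin.append_right, norm_smul, Complex.norm_real, mul_pow,
        Real.norm_eq_abs, sq_abs, Real.sq_sqrt hs, Real.sq_sqrt ht]
      rw [← Finset.mul_sum, ← Finset.mul_sum]
      nlinarith
    · funext x
      simp only [hΦ, Pi.add_apply, Pi.smul_apply, smul_eq_mul]
      rw [Fin.sum_univ_add]
      simp only [Fin.append_left, Fin.append_right, map_smul, inner_smul_left, inner_smul_right,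
        Complex.conj_ofReal]
      rw [Finset.mul_sum, Finset.mul_sum]
      congr 1
      · refine Finset.sum_congr rfl fun j _ => ?_
        have : ((√s : ℝ) : ℂ) * (((√s : ℝ) : ℂ) * ⟪k j, l₀ x.1 (r₀ x.1 (h j))⟫_ℂ) =
            ((s : ℝ) : ℂ) * ⟪k j, l₀ x.1 (r₀ x.1 (h j))⟫_ℂ := by
          rw [← mul_assoc, ← Complex.ofReal_mul, Real.mul_self_sqrt hs]
        rw [this, Complex.re_ofReal_mul]
      · refine Finset.sum_congr rfl fun j _ => ?_
        have : ((√t : ℝ) : ℂ) * (((√t : ℝ) : ℂ) * ⟪k' j, l₀ x.1 (r₀ x.1 (h' j))⟫_ℂ) =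
            ((t : ℝ) : ℂ) * ⟪k' j, l₀ x.1 (r₀ x.1 (h' j))⟫_ℂ := by
          rw [← mul_assoc, ← Complex.ofReal_mul, Real.mul_self_sqrt ht]
        rw [this, Complex.re_ofReal_mul]
  obtain ⟨g, ⟨n, h, k, hh, hk, rfl⟩, hg⟩ := select K hK (fun x : F => q x.1) ε hε (by
    intro t ht δ hδ
    set y : F → (H →L[ℂ] H) := fun x => ((√(t x) : ℝ) : ℂ) • x.1 with hy
    have hyA : ∀ x, y x ∈ A := fun x => hA _ (hF _ x.2) _
    have h1 := hTT F y hyA
    have h2 : ∑ x, q (y x) = ∑ x : F, t x * q x.1 := by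
      refine Finset.sum_congr rfl fun x _ => ?_
      simp only [hy]
      rw [hq, Complex.norm_real, Real.norm_eq_abs, sq_abs, Real.sq_sqrt (ht x)]
    have h3 : TT l₀ r₀ y = ∑ x : F, ((t x : ℝ) : ℂ) • (l₀ x.1 * r₀ x.1) := by
      unfold TT
      refine Finset.sum_congr rfl fun x _ => ?_
      simp only [hy]
      rw [hM.l_smul, hM.r_smul, Complex.conj_ofReal, smul_mul_smul_comm, ← Complex.ofReal_mul,
        Real.mul_self_sqrt (ht x)]
    obtain ⟨h, k, hh, hk, hhk⟩ := norming (TT l₀ r₀ y) δ hδ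
    refine ⟨Φ 1 (fun _ => h) (fun _ => k), ⟨1, fun _ => h, fun _ => k, ?_, ?_, rfl⟩, ?_⟩
    · simp only [Finset.univ_unique, Finset.sum_singleton]
      exact pow_le_one₀ (norm_nonneg _) hh
    · simp only [Finset.univ_unique, Finset.sum_singleton]
      exact pow_le_one₀ (norm_nonneg _) hk
    · have h4 : (⟪k, TT l₀ r₀ y h⟫_ℂ).re = ∑ x : F, t x * Φ 1 (fun _ => h) (fun _ => k) x := by
        rw [h3, ContinuousLinearMap.sum_apply, inner_sum, Complex.re_sum]
        refine Finset.sum_congr rfl fun x _ => ?_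
        simp only [hΦ, Finset.univ_unique, Finset.sum_singleton]
        rw [ContinuousLinearMap.smul_apply, inner_smul_right, Complex.re_ofReal_mul]
        rfl
      rw [← h4]
      linarith)
  exact ⟨n, h, k, hh, hk, fun x hx => hg ⟨x, hx⟩⟩

end H68R2.BP
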